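import Pool.Agent.Helper43.CR.Defs

/-!
CR-7: the Baire category step.
-/

set_option autoImplicit false

open Set Topology Filter TopologicalSpace

namespace Pool.Agent.Helper85.CR

/-- The Baire category step. -/
theorem baire_step (K : Type) [MetricSpace K] [CompactSpace K] (τ : Type) [Countable τ]
    (C : τ → Set K) (hC : ∀ t, IsClosed (C t)) (N : τ → ℕ) (n : ∀ t, Fin (N t) → ℕ)
    (φ : ∀ t, Fin (N t) → (K ≃ₜ K))
    (hdense : ∀ t, ∀ f : ℕ → C(K, ℝ), ∀ ε : ℝ, 0 < ε → ∃ g : ℕ → C(K, ℝ),
      (∀ m x, |g m x - f m x| ≤ ε) ∧ ∀ x ∈ C t, ∃ i, g (n t i) (φ t i x) ≠ 0)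
    (h : ℕ → C(K, ℝ)) :
    ∃ f : ℕ → C(K, ℝ), (∀ m x, |f m x - h m x| ≤ 1) ∧
      ∀ t, ∀ x ∈ C t, ∃ i, f (n t i) (φ t i x) ≠ 0 := by
  classical
  let E := BoundedContinuousFunction (ℕ × K) ℝ
  let G : τ → Set E := fun t =>
    {u | ∀ x ∈ C t, ∃ i, h (n t i) (φ t i x) + u (n t i, φ t i x) ≠ 0}
  have hopen : ∀ t, IsOpen (G t) := by
    intro t
    have hcl : IsClosed {p : E × K | p.2 ∈ C t ∧
        ∀ i, h (n t i) (φ t i p.2) + p.1 (n t i, φ t i p.2) = 0} := by
      refine IsClosed.inter ((hC t).preimage continuous_snd) ?_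
      have : {p : E × K | ∀ i, h (n t i) (φ t i p.2) + p.1 (n t i, φ t i p.2) = 0} =
          ⋂ i, {p : E × K | h (n t i) (φ t i p.2) + p.1 (n t i, φ t i p.2) = 0} := by
        ext p; simp
      show IsClosed {p : E × K | ∀ i, h (n t i) (φ t i p.2) + p.1 (n t i, φ t i p.2) = 0}
      rw [this]
      refine isClosed_iInter fun i => ?_
      refine isClosed_eq ?_ continuous_const
      refine Continuous.add ?_ ?_
      · exact (h (n t i)).continuous.comp ((φ t i).continuous.comp continuous_snd)
      · exact Continuous.eval continuous_fst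
          (continuous_const.prodMk ((φ t i).continuous.comp continuous_snd))
    have himg := isClosedMap_fst_of_compactSpace _ hcl
    have heq : G t = (Prod.fst '' {p : E × K | p.2 ∈ C t ∧
        ∀ i, h (n t i) (φ t i p.2) + p.1 (n t i, φ t i p.2) = 0})ᶜ := by
      ext u
      simp only [G, mem_ofPred_eq, mem_compl_iff, mem_image, Prod.exists, exists_and_right,
        exists_eq_right, not_exists, not_and, not_forall]
    rw [heq]
    exact himg.isOpen_compl
  have hdn : ∀ t, Dense (G t) := by
    intro t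
    rw [Metric.dense_iff]
    intro u ε hε
    have hcu : ∀ m, Continuous fun x : K => u (m, x) := fun m =>
      u.continuous.comp (continuous_const.prodMk continuous_id)
    obtain ⟨g, hg1, hg2⟩ := hdense t (fun m => h m + ⟨fun x => u (m, x), hcu m⟩) (ε / 2)
      (half_pos hε)
    have hb : ∀ p : ℕ × K, |(g p.1 p.2 - h p.1 p.2) - u p| ≤ ε / 2 := by
      intro p
      have := hg1 p.1 p.2
      simp only [ContinuousMap.add_apply, ContinuousMap.coe_mk, Prod.mk.eta] at this
      have he : (g p.1 p.2 - h p.1 p.2) - u p = g p.1 p.2 - (h p.1 p.2 + u p) := by ring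
      rw [he]
      exact this
    have hc : Continuous fun p : ℕ × K => g p.1 p.2 - h p.1 p.2 := by
      rw [continuous_prod_of_discrete_left]
      intro m
      exact (g m).continuous.sub (h m).continuous
    let v : E := BoundedContinuousFunction.ofNormedAddCommGroup
      (fun p : ℕ × K => g p.1 p.2 - h p.1 p.2) hc (‖u‖ + ε / 2) (by
        intro p
        have h1 := hb p
        have h2 := u.norm_coe_le_norm p
        rw [Real.norm_eq_abs] at h2 ⊢
        have h3 : g p.1 p.2 - h p.1 p.2 = u p + ((g p.1 p.2 - h p.1 p.2) - u p) := by ring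
        rw [h3]
        exact (abs_add_le _ _).trans (add_le_add h2 h1))
    have hv : ∀ p, v p = g p.1 p.2 - h p.1 p.2 := fun p => rfl
    refine ⟨v, ?_, ?_⟩
    · rw [Metric.mem_ball]
      refine lt_of_le_of_lt ?_ (half_lt_self hε)
      rw [BoundedContinuousFunction.dist_le (half_pos hε).le]
      intro p
      rw [Real.dist_eq, hv]
      exact hb p
    · intro x hx
      obtain ⟨i, hi⟩ := hg2 x hx
      refine ⟨i, ?_⟩
      rw [hv]
      have : h (n t i) (φ t i x) + (g (n t i) (φ t i x) - h (n t i) (φ t i x)) =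
          g (n t i) (φ t i x) := by ring
      simpa [this] using hi
  have hD : Dense (⋂ t, G t) := dense_iInter_of_isOpen hopen hdn
  obtain ⟨u, hu1, hu2⟩ := (Metric.dense_iff.1 hD) 0 1 one_pos
  rw [mem_iInter] at hu2
  rw [Metric.mem_ball, dist_zero_right] at hu1
  have hcu : ∀ m, Continuous fun x : K => u (m, x) := fun m =>
    u.continuous.comp (continuous_const.prodMk continuous_id)
  refine ⟨fun m => h m + ⟨fun x => u (m, x), hcu m⟩, ?_, ?_⟩
  · intro m x
    simp only [ContinuousMap.add_apply, ContinuousMap.coe_mk, add_sub_cancel_left]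
    have := u.norm_coe_le_norm (m, x)
    rw [Real.norm_eq_abs] at this
    exact this.trans hu1.le
  · intro t x hx
    obtain ⟨i, hi⟩ := hu2 t x hx
    exact ⟨i, by simpa using hi⟩

end Pool.Agent.Helper85.CR
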